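import Mathlib

/-! The rounding lemma behind the toric bound. -/

namespace Pool.Agent.P.MP_49dad5_gt

open Finset

theorem exists_round (n : ℕ) (hn : 0 < n) (m k : ℕ) (hk : 2 * n ^ 2 * (m + 1) ≤ k)
    (u : Fin n → ℝ) (hu : ∀ j, 0 ≤ u j) (hs : ∑ j, u j = 1) :
    ∃ (v : Fin n → ℕ) (i : Fin n), ∑ j, v j = k ∧ (k : ℝ) ≤ 2 * n * v i ∧
      |(v i : ℝ) - k * u i| ≤ n * (m + 1) ∧
      ∀ j, j ≠ i → (m : ℝ) ≤ v j - k * u j ∧ (v j : ℝ) - k * u j ≤ m + 1 := by
  classical
  have hn' : (0 : ℝ) < n := by exact_mod_cast hn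
  have hk0 : (0 : ℝ) ≤ k := by positivity
  obtain ⟨i, hi⟩ : ∃ i, 1 / (n : ℝ) ≤ u i := by
    by_contra h
    push Not at h
    have : ∑ j, u j < ∑ _j : Fin n, 1 / (n : ℝ) :=
      Finset.sum_lt_sum_of_nonempty ⟨⟨0, hn⟩, mem_univ _⟩ fun j _ => h j
    rw [hs] at this
    simp at this
    rw [mul_inv_cancel₀ hn'.ne'] at this
    exact lt_irrefl _ this
  set g : Fin n → ℕ := fun j => ⌈(k : ℝ) * u j⌉₊ + m with hg
  have hg1 : ∀ j, (m : ℝ) ≤ g j - k * u j := fun j => by
    have := Nat.le_ceil ((k : ℝ) * u j)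
    simp only [hg]; push_cast; linarith
  have hg2 : ∀ j, (g j : ℝ) - k * u j ≤ m + 1 := fun j => by
    have := Nat.ceil_lt_add_one (mul_nonneg hk0 (hu j))
    simp only [hg]; push_cast; linarith
  set S : ℕ := ∑ j ∈ univ.erase i, g j with hS
  have hsum : ∑ j ∈ univ.erase i, (k : ℝ) * u j = k - k * u i := by
    rw [← Finset.mul_sum, Finset.sum_erase_eq_sub (mem_univ i), hs]; ring
  have hcard : ((univ.erase i).card : ℝ) ≤ n := by
    have : (univ.erase i).card ≤ n := by
      simpa using Finset.card_erase_le (s := (univ : Finset (Fin n))) (a := i)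
    exact_mod_cast this
  have hS1 : (S : ℝ) - (k - k * u i) ≤ n * (m + 1) := by
    rw [← hsum, hS]; push_cast
    rw [← Finset.sum_sub_distrib]
    calc ∑ j ∈ univ.erase i, ((g j : ℝ) - k * u j) ≤ ∑ _j ∈ univ.erase i, ((m : ℝ) + 1) :=
          Finset.sum_le_sum fun j _ => hg2 j
      _ = (univ.erase i).card * ((m : ℝ) + 1) := by rw [Finset.sum_const, nsmul_eq_mul]
      _ ≤ n * (m + 1) := by gcongr
  have hS2 : 0 ≤ (S : ℝ) - (k - k * u i) := by
    rw [← hsum, hS]; push_cast
    rw [← Finset.sum_sub_distrib]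
    exact Finset.sum_nonneg fun j _ => le_trans (by positivity) (hg1 j)
  have hk' : 2 * (n : ℝ) ^ 2 * (m + 1) ≤ k := by exact_mod_cast hk
  have hki : (k : ℝ) ≤ n * (k * u i) := by
    have := mul_le_mul_of_nonneg_left hi (mul_nonneg hn'.le hk0)
    calc (k : ℝ) = n * k * (1 / n) := by field_simp
      _ ≤ n * k * u i := this
      _ = n * (k * u i) := by ring
  have hmain : (k : ℝ) ≤ 2 * n * (k - S) := by nlinarith
  have hSk : S ≤ k := by
    have : (0 : ℝ) ≤ k - S := by
      by_contra h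
      push Not at h
      nlinarith
    exact_mod_cast (by linarith : (S : ℝ) ≤ k)
  refine ⟨Function.update g i (k - S), i, ?_, ?_, ?_, ?_⟩
  · rw [← Finset.add_sum_erase _ _ (mem_univ i), Function.update_self]
    have : ∑ j ∈ univ.erase i, Function.update g i (k - S) j = S := by
      rw [hS]
      exact Finset.sum_congr rfl fun j hj => by
        rw [Function.update_of_ne (Finset.ne_of_mem_erase hj)]
    rw [this]; omega
  · rw [Function.update_self, Nat.cast_sub hSk]; exact hmain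
  · rw [Function.update_self, Nat.cast_sub hSk, abs_le]
    constructor
    · linarith
    · have : (0 : ℝ) ≤ n * (m + 1) := by positivity
      linarith
  · intro j hj
    rw [Function.update_of_ne hj]
    exact ⟨hg1 j, hg2 j⟩

theorem core (n : ℕ) (hn : 0 < n) (C : ℕ) (hC : 0 < C) :
    ∃ k₀ : ℕ, ∀ k ≥ k₀, ∀ u : Fin n → ℝ, (∀ j, 0 ≤ u j) → ∑ j, u j = 1 →
      ∃ v : Fin n → ℕ, ∑ j, v j = k ∧ ∀ e : ℝ, 0 < e → k * e ≤ n → ∀ η : Fin n → ℝ,
        (∀ j, -1 ≤ η j ∧ η j ≤ C * e) → ∑ j, u j * η j ≤ 0 →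
        ∑ j, v j * (1 + η j) ^ 2 < k * (1 + e) := by
  classical
  set A : ℕ := C * n with hA
  set m : ℕ := 2 * A with hm
  set K : ℕ := 2 * m + 2 + A + 12 * n ^ 2 * (m + 1) + 36 * n ^ 2 * A with hK
  refine ⟨2 * n ^ 2 * (m + 1) + A + n * K * C + 1, fun k hk u hu hs => ?_⟩
  obtain ⟨v, i, hv, hvi, hθi, hθ⟩ := exists_round n hn m k (by omega) u hu hs
  refine ⟨v, hv, fun e he hke η hη hlin => ?_⟩
  by_contra hcon
  push Not at hcon
  have hn' : (0 : ℝ) < n := by exact_mod_cast hn
  have hC' : (0 : ℝ) < C := by exact_mod_cast hC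
  have hkpos : (0 : ℝ) < k := by
    have : 0 < k := by omega
    exact_mod_cast this
  set t : ℝ := C * e with ht
  have htpos : 0 < t := by positivity
  have hA' : (A : ℝ) = C * n := by rw [hA]; push_cast; ring
  have hm' : (m : ℝ) = 2 * A := by rw [hm]; push_cast; ring
  have hkt : k * t ≤ A := by
    rw [hA', ht]; nlinarith
  have hAk : (A : ℝ) ≤ k := by exact_mod_cast (by omega : A ≤ k)
  have ht1 : t ≤ 1 := by
    by_contra h
    push Not at h
    nlinarith
  have hvr : ∑ j, (v j : ℝ) = k := by exact_mod_cast hv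
  have hvk : ∀ j, (v j : ℝ) ≤ k := fun j => by
    rw [← hvr]
    exact Finset.single_le_sum (f := fun j => (v j : ℝ)) (fun j _ => by positivity) (mem_univ j)
  have hexp : ∑ j, (v j : ℝ) * (1 + η j) ^ 2 =
      (k : ℝ) + ∑ j, (v j : ℝ) * (2 * η j + η j ^ 2) := by
    rw [← hvr, ← Finset.sum_add_distrib]
    exact Finset.sum_congr rfl fun j _ => by ring
  have hS : k * e ≤ ∑ j, (v j : ℝ) * (2 * η j + η j ^ 2) := by
    rw [hexp] at hcon; linarith
  have hψ : ∀ j, max 0 (-η j) ≤ 3 * t - (2 * η j + η j ^ 2) := fun j => by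
    obtain ⟨h1, h2⟩ := hη j
    rcases le_total 0 (η j) with h | h
    · apply max_le <;> nlinarith
    · apply max_le <;> nlinarith
  have hneg : ∀ j, (v j : ℝ) * (-η j) ≤ 3 * (k * t) := fun j => by
    have h1 : ∑ j, (v j : ℝ) * (3 * t - (2 * η j + η j ^ 2)) =
        3 * (k * t) - ∑ j, (v j : ℝ) * (2 * η j + η j ^ 2) := by
      rw [← hvr, Finset.sum_mul, Finset.mul_sum, ← Finset.sum_sub_distrib]
      exact Finset.sum_congr rfl fun j _ => by ring
    have h2 : (v j : ℝ) * (3 * t - (2 * η j + η j ^ 2)) ≤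
        ∑ j, (v j : ℝ) * (3 * t - (2 * η j + η j ^ 2)) :=
      Finset.single_le_sum (f := fun j => (v j : ℝ) * (3 * t - (2 * η j + η j ^ 2)))
        (fun j _ => mul_nonneg (by positivity) ((le_max_left _ _).trans (hψ j))) (mem_univ j)
    have h3 : (v j : ℝ) * (-η j) ≤ (v j : ℝ) * (3 * t - (2 * η j + η j ^ 2)) :=
      mul_le_mul_of_nonneg_left ((le_max_right _ _).trans (hψ j)) (by positivity)
    have h4 : 0 < k * e := by positivity
    linarith
  have hK' : (K : ℝ) = 2 * m + 2 + A + 12 * n ^ 2 * (m + 1) + 36 * n ^ 2 * A := by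
    rw [hK]; push_cast; ring
  have hA0 : (0 : ℝ) ≤ A := by positivity
  have hm0 : (0 : ℝ) ≤ m := by positivity
  have hT : ∀ j, (v j : ℝ) * (2 * η j + η j ^ 2) - 2 * k * (u j * η j) ≤ K * t := fun j => by
    have hid : (v j : ℝ) * (2 * η j + η j ^ 2) - 2 * k * (u j * η j) =
        2 * (v j - k * u j) * η j + v j * η j ^ 2 := by ring
    rw [hid, hK']
    have hv0 : (0 : ℝ) ≤ v j := by positivity
    have hx1 : 0 ≤ (2 * (m : ℝ) + 2 + A) * t := by positivity
    have hx2 : 0 ≤ (12 * (n : ℝ) ^ 2 * (m + 1) + 36 * n ^ 2 * A) * t := by positivity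
    obtain ⟨h1, h2⟩ := hη j
    by_cases hj : j = i
    · subst hj
      have hn1 : (1 : ℝ) ≤ n := by exact_mod_cast hn
      have habs : |η j| ≤ 6 * n * t := by
        rw [abs_le]
        constructor
        · by_contra h
          push Not at h
          have h5 : 6 * n * t < -η j := by linarith
          have h6 : (0 : ℝ) < v j := by
            by_contra h7
            push Not at h7
            nlinarith
          have h7 : (v j : ℝ) * (6 * n * t) < v j * (-η j) := mul_lt_mul_of_pos_left h5 h6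
          have h8 := hneg j
          nlinarith
        · nlinarith
      have h5 : 2 * (v j - k * u j) * η j ≤ 2 * (n * (m + 1)) * (6 * n * t) := by
        calc 2 * (v j - k * u j) * η j ≤ |2 * (v j - k * u j) * η j| := le_abs_self _
          _ = 2 * |(v j : ℝ) - k * u j| * |η j| := by rw [abs_mul, abs_mul]; simp
          _ ≤ 2 * (n * (m + 1)) * (6 * n * t) := by gcongr
      have h6 : η j ^ 2 ≤ (6 * n * t) ^ 2 := by
        rw [← sq_abs]; gcongr
      have h7 : (v j : ℝ) * η j ^ 2 ≤ k * (6 * n * t) ^ 2 :=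
        mul_le_mul (hvk j) h6 (by positivity) hkpos.le
      have h8 : (k : ℝ) * (6 * n * t) ^ 2 ≤ 36 * n ^ 2 * A * t := by
        calc (k : ℝ) * (6 * n * t) ^ 2 = 36 * n ^ 2 * (k * t) * t := by ring
          _ ≤ 36 * n ^ 2 * A * t := by gcongr
      nlinarith
    · obtain ⟨h3, h4⟩ := hθ j hj
      rcases le_total 0 (η j) with h | h
      · have h5 : 2 * (v j - k * u j) * η j ≤ 2 * (m + 1) * t := by
          have : 0 ≤ (v j : ℝ) - k * u j := hm0.trans h3
          gcongr
        have h6 : (v j : ℝ) * η j ^ 2 ≤ k * t ^ 2 :=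
          mul_le_mul (hvk j) (by gcongr) (by positivity) hkpos.le
        have h7 : (k : ℝ) * t ^ 2 ≤ A * t := by
          calc (k : ℝ) * t ^ 2 = k * t * t := by ring
            _ ≤ A * t := by gcongr
        nlinarith
      · have h5 := hneg j
        have h6 : 2 * (v j - k * u j) * η j + v j * η j ^ 2 =
            (-η j) * (v j * (-η j) - 2 * (v j - k * u j)) := by ring
        have h7 : (-η j) * (v j * (-η j) - 2 * (v j - k * u j)) ≤ 0 :=
          mul_nonpos_of_nonneg_of_nonpos (by linarith) (by linarith)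
        nlinarith
  have hsumT : ∑ j, ((v j : ℝ) * (2 * η j + η j ^ 2) - 2 * k * (u j * η j)) ≤ n * (K * t) := by
    calc _ ≤ ∑ _j : Fin n, (K : ℝ) * t := Finset.sum_le_sum fun j _ => hT j
      _ = n * (K * t) := by simp
  rw [Finset.sum_sub_distrib, ← Finset.mul_sum] at hsumT
  have h1 : 2 * (k : ℝ) * ∑ j, u j * η j ≤ 0 :=
    mul_nonpos_of_nonneg_of_nonpos (by positivity) hlin
  have h2 : k * e ≤ n * K * C * e := by
    calc k * e ≤ n * (K * t) := by linarith
      _ = n * K * C * e := by rw [ht]; ring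
  have h3 : (k : ℝ) ≤ n * K * C := le_of_mul_le_mul_right h2 he
  have h4 : ((n * K * C : ℕ) : ℝ) < k := by exact_mod_cast (by omega : n * K * C < k)
  push_cast at h4
  linarith

end Pool.Agent.P.MP_49dad5_gt
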