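import Mathlib

/-! Symplectic `k`-capacities on `ℂ^n`, ellipsoids, polydisks and torus-invariant convex bodies. -/

namespace Pool.Agent.P.MP_49dad5_gt

open scoped ContDiff

variable {n : ℕ}

/-- The standard symplectic form. -/
def omega (u v : Fin n → ℂ) : ℝ := ∑ j, ((u j).re * (v j).im - (u j).im * (v j).re)

/-- `ψ` is a symplectomorphism of `ℂ^n`. -/
def IsSymplecto (ψ : (Fin n → ℂ) → (Fin n → ℂ)) : Prop :=
  ContDiff ℝ ∞ ψ ∧
  (∃ φ : (Fin n → ℂ) → (Fin n → ℂ),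
    ContDiff ℝ ∞ φ ∧ Function.LeftInverse φ ψ ∧ Function.RightInverse φ ψ) ∧
  ∀ x u v, omega (fderiv ℝ ψ x u) (fderiv ℝ ψ x v) = omega u v

/-- The ellipsoid `E(a)`, entries in `(0, ∞]`. -/
def ellipsoid (a : Fin n → ENNReal) : Set (Fin n → ℂ) :=
  {z | ∑ j, ENNReal.ofReal (‖z j‖ ^ 2) / a j ≤ ENNReal.ofReal (1 / Real.pi)}

/-- The `k`-th term of the sorted list of the positive multiples of the finite `a j`, counted with
multiplicity: the least `t` such that at least `k` pairs `(j, m)`, `m ≥ 1`, have `m * a j ≤ t`. -/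
noncomputable def kth (k : ℕ) (a : Fin n → ENNReal) : ENNReal :=
  sInf {t | (k : ℕ∞) ≤ {p : Fin n × ℕ | 0 < p.2 ∧ a p.1 < ⊤ ∧ p.2 * a p.1 ≤ t}.encard}

/-- The axioms of a symplectic `k`-capacity: monotonicity, conformality, normalization. -/
def IsCapacity (k : ℕ) (c : Set (Fin n → ℂ) → ENNReal) : Prop :=
  (∀ U V ψ, IsSymplecto ψ → ψ '' U ⊆ V → c U ≤ c V) ∧
  (∀ (b : ℝ) U, c ((fun z => b • z) '' U) = ENNReal.ofReal (b ^ 2) * c U) ∧
  ∀ a : Fin n → ENNReal, (∀ j, 0 < a j) → (∀ j : Fin n, j.val = 0 → a j < ⊤) →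
    c (ellipsoid a) = kth k a

/-- A convex body whose membership depends only on the moduli `‖z j‖`. -/
def IsToricBody (B : Set (Fin n → ℂ)) : Prop :=
  IsCompact B ∧ Convex ℝ B ∧ (interior B).Nonempty ∧
  ∀ z ∈ B, ∀ w : Fin n → ℂ, (∀ j, ‖w j‖ = ‖z j‖) → w ∈ B

/-- The moment map. -/
noncomputable def moment (z : Fin n → ℂ) : Fin n → ℝ := fun j => Real.pi * ‖z j‖ ^ 2

/-- The polydisk `P(a, …, a)`. -/
def cube (n : ℕ) (a : ℝ) : Set (Fin n → ℂ) := {z | ∀ j, moment z j ≤ a}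

/-- `c U ≤ (k + n - 1) δ` for every compact `U` inside the union of the `n` coordinate cylinders
of area `δ`. -/
def CylBound (k : ℕ) (c : Set (Fin n → ℂ) → ENNReal) : Prop :=
  ∀ δ : ℝ, 0 < δ → ∀ U, IsCompact U → (∀ z ∈ U, ∃ j, moment z j ≤ δ) →
    c U ≤ ENNReal.ofReal ((k + n - 1) * δ)

end Pool.Agent.P.MP_49dad5_gt
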