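import Pool.Agent.P.MP_49dad5_gt.Defs

/-! Geometry of torus-invariant convex bodies. -/

namespace Pool.Agent.P.MP_49dad5_gt

open MeasureTheory Finset

variable {n : ℕ} {B : Set (Fin n → ℂ)}

theorem mid_mem (hc : Convex ℝ B) {x y z : Fin n → ℂ} (hx : x ∈ B) (hy : y ∈ B)
    (h : ∀ j, z j = (x j + y j) / 2) : z ∈ B := by
  have := hc hx hy (a := 1 / 2) (b := 1 / 2) (by norm_num) (by norm_num) (by norm_num)
  convert this using 1
  funext j
  rw [h j]
  simp only [Pi.add_apply, Pi.smul_apply, Complex.real_smul]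
  push_cast
  ring

theorem IsToricBody.down (hB : IsToricBody B) {z : Fin n → ℂ} (hz : z ∈ B) {w : Fin n → ℂ}
    (h : ∀ j, ‖w j‖ ≤ ‖z j‖) : w ∈ B := by
  obtain ⟨-, hc, -, hT⟩ := hB
  set a : Fin n → ℝ := fun j => Real.sqrt (‖z j‖ ^ 2 - ‖w j‖ ^ 2) with ha
  have ha2 : ∀ j, a j ^ 2 = ‖z j‖ ^ 2 - ‖w j‖ ^ 2 := fun j =>
    Real.sq_sqrt (by have := h j; have := norm_nonneg (w j); nlinarith)
  have hp : (fun j => (‖w j‖ : ℂ) + (a j : ℂ) * Complex.I) ∈ B := hT z hz _ fun j => by
    rw [Complex.norm_add_mul_I, ha2]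
    simp
  have hm : (fun j => (‖w j‖ : ℂ) + ((-a j : ℝ) : ℂ) * Complex.I) ∈ B := hT z hz _ fun j => by
    rw [Complex.norm_add_mul_I, neg_sq, ha2]
    simp
  have hr : (fun j => (‖w j‖ : ℂ)) ∈ B := mid_mem hc hp hm fun j => by push_cast; ring
  exact hT _ hr w fun j => by simp

theorem IsToricBody.exists_rho (hB : IsToricBody B) (hn : 0 < n) :
    ∃ ρ : ℝ, 0 < ρ ∧ (fun _ => (ρ : ℂ)) ∈ B ∧ ∀ z ∈ B, ∃ j, ‖z j‖ ≤ ρ := by
  have hB' := hB
  obtain ⟨hK, hc, ⟨z₀, hz₀⟩, hT⟩ := hB
  haveI : Nonempty (Fin n) := ⟨⟨0, hn⟩⟩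
  obtain ⟨ε, hε, hball⟩ := Metric.mem_nhds_iff.1 (mem_interior_iff_mem_nhds.1 hz₀)
  have h1 : (fun j => z₀ j + ((ε / 2 : ℝ) : ℂ)) ∈ B := hball (by
    rw [Metric.mem_ball, dist_pi_lt_iff hε]
    intro j
    rw [dist_eq_norm]
    simp only [add_sub_cancel_left, Complex.norm_real, Real.norm_eq_abs]
    rw [abs_of_pos (by positivity)]; linarith)
  have h2 : (fun j => z₀ j - ((ε / 2 : ℝ) : ℂ)) ∈ B := hball (by
    rw [Metric.mem_ball, dist_pi_lt_iff hε]
    intro j
    rw [dist_eq_norm]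
    simp only [sub_sub_cancel_left, norm_neg, Complex.norm_real, Real.norm_eq_abs]
    rw [abs_of_pos (by positivity)]; linarith)
  have h3 : (fun j => -(z₀ j - ((ε / 2 : ℝ) : ℂ))) ∈ B := hT _ h2 _ fun j => by rw [norm_neg]
  have h4 : (fun _ => ((ε / 2 : ℝ) : ℂ)) ∈ B := mid_mem hc h1 h3 fun j => by ring
  have hcont : Continuous fun z : Fin n → ℂ => univ.inf' univ_nonempty fun j => ‖z j‖ :=
    Continuous.finset_inf'_apply univ_nonempty fun j _ => (continuous_apply j).norm
  obtain ⟨z, hz, hmax⟩ := hK.exists_isMaxOn ⟨_, h4⟩ hcont.continuousOn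
  refine ⟨univ.inf' univ_nonempty fun j => ‖z j‖, ?_, ?_, ?_⟩
  · have := hmax h4
    simp only [Set.mem_setOf_eq, Finset.inf'_const, Complex.norm_real, Real.norm_eq_abs] at this
    exact lt_of_lt_of_le (abs_pos.2 (by positivity)) this
  · refine hB'.down hz fun j => ?_
    rw [Complex.norm_real, Real.norm_eq_abs, abs_of_nonneg]
    · exact Finset.inf'_le _ (mem_univ j)
    · exact Finset.le_inf' _ _ fun j _ => norm_nonneg _
  · intro w hw
    have := hmax hw
    simp only [Set.mem_setOf_eq] at this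
    obtain ⟨j, -, hj⟩ := Finset.exists_mem_eq_inf' (univ_nonempty (α := Fin n)) fun j => ‖w j‖
    exact ⟨j, by rw [← hj]; exact this⟩

theorem exists_support (K : Set (Fin n → ℝ)) (hK : Convex ℝ K) (ρ : ℝ)
    (hne : (fun _ => ρ) ∈ K) (h : ∀ x ∈ K, ∃ j, x j ≤ ρ) :
    ∃ u : Fin n → ℝ, (∀ j, 0 ≤ u j) ∧ ∑ j, u j = 1 ∧ ∀ x ∈ K, ∑ j, u j * x j ≤ ρ := by
  classical
  set O : Set (Fin n → ℝ) := Set.univ.pi fun _ => Set.Ioi ρ with hO
  have hOo : IsOpen O := isOpen_set_pi Set.finite_univ fun _ _ => isOpen_Ioi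
  have hOc : Convex ℝ O := convex_pi fun _ _ => convex_Ioi ρ
  have hd : Disjoint O K := by
    rw [Set.disjoint_left]
    intro x hx hxK
    obtain ⟨j, hj⟩ := h x hxK
    exact absurd (hx j (Set.mem_univ j)) (not_lt.2 hj)
  obtain ⟨f, s, hf1, hf2⟩ := geometric_hahn_banach_open hOc hOo hK hd
  set a : Fin n → ℝ := fun j => -f (Pi.single j 1) with ha
  have hf : ∀ x : Fin n → ℝ, f x = -∑ j, a j * x j := fun x => by
    conv_lhs => rw [← Finset.univ_sum_single x]
    rw [map_sum, ← Finset.sum_neg_distrib]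
    refine Finset.sum_congr rfl fun j _ => ?_
    have : (Pi.single j (x j) : Fin n → ℝ) = x j • (Pi.single j 1 : Fin n → ℝ) := by
      ext i; by_cases hij : i = j <;> simp [hij]
    rw [this, map_smul, ha]; simp [mul_comm]
  have hs := hf2 _ hne
  rw [hf, ← Finset.sum_mul] at hs
  have hε : ∀ ε : ℝ, 0 < ε → -((∑ j, a j) * (ρ + ε)) < s := fun ε hε => by
    have := hf1 (fun _ => ρ + ε) fun j _ => by simp [hε]
    rwa [hf, ← Finset.sum_mul] at this
  have hσ : 0 < ∑ j, a j := by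
    have := hε 1 one_pos
    nlinarith
  have hsρ : -((∑ j, a j) * ρ) ≤ s := by
    by_contra hc
    push Not at hc
    have := hε ((-((∑ j, a j) * ρ) - s) / ∑ j, a j) (div_pos (by linarith) hσ)
    rw [mul_add, mul_div_cancel₀ _ hσ.ne'] at this
    linarith
  have ha0 : ∀ j, 0 ≤ a j := fun j => by
    by_contra hc
    push Not at hc
    set M : ℝ := (∑ j, a j) / (-a j) with hM
    have hM0 : 0 ≤ M := div_nonneg hσ.le (by linarith)
    have := hf1 ((fun _ => ρ + 1) + Pi.single j M) fun i _ => by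
      by_cases hij : i = j
      · subst hij; simp; linarith
      · simp [hij]
    rw [map_add, hf, hf, ← Finset.sum_mul] at this
    have h2 : ∑ i, a i * (Pi.single j M : Fin n → ℝ) i = a j * M := by
      rw [Finset.sum_eq_single j]
      · simp
      · intro i _ hij; simp [hij]
      · simp
    have h3 : a j * M = -∑ j, a j := by
      rw [hM]; field_simp [hc.ne]
    rw [h2, h3] at this
    nlinarith
  refine ⟨fun j => a j / ∑ j, a j, fun j => div_nonneg (ha0 j) hσ.le, ?_, fun x hx => ?_⟩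
  · rw [← Finset.sum_div, div_self hσ.ne']
  · have := hf2 x hx
    rw [hf] at this
    have h2 : ∑ j, a j / (∑ j, a j) * x j = (∑ j, a j * x j) / ∑ j, a j := by
      rw [Finset.sum_div]
      exact Finset.sum_congr rfl fun j _ => by ring
    rw [h2, div_le_iff₀ hσ]
    linarith

theorem vol_disc (r : ℝ) (hr : 0 ≤ r) :
    volume (Metric.closedBall (0 : ℂ) r) = ENNReal.ofReal (Real.pi * r ^ 2) := by
  rw [Complex.volume_closedBall, ENNReal.ofReal_mul Real.pi_pos.le, ENNReal.ofReal_pow hr, mul_comm]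
  congr 1
  rw [← NNReal.coe_real_pi, ENNReal.ofReal_coe_nnreal]

theorem IsToricBody.vol_lower (hB : IsToricBody B) {ρ : ℝ} (hρ : 0 < ρ)
    (h1 : (fun _ => (ρ : ℂ)) ∈ B) {t : ℝ} (ht : 0 ≤ t) {z : Fin n → ℂ} (hz : z ∈ B) {i : Fin n}
    (hi : ρ * (1 + t) ≤ ‖z i‖) :
    ENNReal.ofReal ((Real.pi * ρ ^ 2) ^ n * (1 + t / 4 ^ n)) ≤ volume B := by
  classical
  set δ : ℝ := Real.pi * ρ ^ 2 with hδ
  have hδ0 : 0 < δ := by have := Real.pi_pos; positivity
  set P : Set (Fin n → ℂ) := Set.univ.pi fun _ => Metric.closedBall (0 : ℂ) ρ with hP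
  set q : Fin n → Set ℂ := fun j => if j = i then
    Metric.closedBall (0 : ℂ) (ρ * (1 + t / 2)) \ Metric.closedBall (0 : ℂ) ρ
    else Metric.closedBall (0 : ℂ) (ρ / 2) with hq
  set Q : Set (Fin n → ℂ) := Set.univ.pi q with hQ
  have hPB : P ⊆ B := fun w hw => hB.down h1 fun j => by
    have := hw j (Set.mem_univ j)
    rw [mem_closedBall_zero_iff] at this
    rwa [Complex.norm_real, Real.norm_eq_abs, abs_of_pos hρ]
  have hy : (fun j => if j = i then ((ρ * (1 + t) : ℝ) : ℂ) else 0) ∈ B := hB.down hz fun j => by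
    by_cases hj : j = i
    · subst hj
      rw [if_pos rfl, Complex.norm_real, Real.norm_eq_abs, abs_of_pos (by positivity)]
      exact hi
    · rw [if_neg hj, norm_zero]; exact norm_nonneg _
  have hy2 : (fun j => if j = i then ((ρ * (1 + t / 2) : ℝ) : ℂ) else ((ρ / 2 : ℝ) : ℂ)) ∈ B :=
    mid_mem hB.2.1 h1 hy fun j => by
      by_cases hj : j = i
      · simp only [if_pos hj]; push_cast; ring
      · simp only [if_neg hj]; push_cast; ring
  have hQB : Q ⊆ B := fun w hw => hB.down hy2 fun j => by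
    have := hw j (Set.mem_univ j)
    by_cases hj : j = i
    · simp only [hq, if_pos hj] at this ⊢
      rw [Complex.norm_real, Real.norm_eq_abs, abs_of_pos (by positivity)]
      exact mem_closedBall_zero_iff.1 this.1
    · simp only [hq, if_neg hj] at this ⊢
      rw [Complex.norm_real, Real.norm_eq_abs, abs_of_pos (by positivity)]
      exact mem_closedBall_zero_iff.1 this
  have hdis : Disjoint P Q := by
    rw [Set.disjoint_left]
    intro w hw hw'
    have h2 := hw' i (Set.mem_univ i)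
    simp only [hq, if_pos rfl] at h2
    exact h2.2 (hw i (Set.mem_univ i))
  have hqm : ∀ j, MeasurableSet (q j) := fun j => by
    simp only [hq]
    split_ifs
    · exact measurableSet_closedBall.diff measurableSet_closedBall
    · exact measurableSet_closedBall
  have hQm : MeasurableSet Q := MeasurableSet.univ_pi hqm
  have hvP : volume P = ENNReal.ofReal (δ ^ n) := by
    rw [hP, volume_pi_pi, vol_disc ρ hρ.le, Finset.prod_const, ENNReal.ofReal_pow hδ0.le]
    simp [hδ]
  have hvq : ∀ j, ENNReal.ofReal (δ / 4 * if j = i then t else 1) ≤ volume (q j) := fun j => by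
    simp only [hq]
    split_ifs
    · rw [measure_diff (Metric.closedBall_subset_closedBall (by nlinarith))
        measurableSet_closedBall.nullMeasurableSet measure_closedBall_lt_top.ne,
        vol_disc _ (by positivity), vol_disc _ hρ.le, ← ENNReal.ofReal_sub _ hδ0.le]
      apply ENNReal.ofReal_le_ofReal
      have : Real.pi * (ρ * (1 + t / 2)) ^ 2 - δ = δ * (t + t ^ 2 / 4) := by rw [hδ]; ring
      rw [this]
      nlinarith [mul_nonneg hδ0.le ht, mul_nonneg hδ0.le (sq_nonneg t)]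
    · rw [vol_disc _ (by positivity)]
      apply ENNReal.ofReal_le_ofReal
      rw [hδ]; apply le_of_eq; ring
  have hvQ : ENNReal.ofReal ((δ / 4) ^ n * t) ≤ volume Q := by
    rw [hQ, volume_pi_pi]
    refine le_trans (le_of_eq ?_) (Finset.prod_le_prod' fun j _ => hvq j)
    rw [← ENNReal.ofReal_prod_of_nonneg fun j _ => by split_ifs <;> positivity,
      Finset.prod_mul_distrib, Finset.prod_const, Finset.prod_ite_eq']
    simp
  calc ENNReal.ofReal (δ ^ n * (1 + t / 4 ^ n))
      = ENNReal.ofReal (δ ^ n) + ENNReal.ofReal ((δ / 4) ^ n * t) := by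
        rw [← ENNReal.ofReal_add (by positivity) (by positivity)]
        congr 1
        rw [div_pow]; ring
    _ ≤ volume P + volume Q := by rw [hvP]; gcongr
    _ = volume (P ∪ Q) := (measure_union hdis hQm).symm
    _ ≤ volume B := measure_mono (Set.union_subset hPB hQB)

end Pool.Agent.P.MP_49dad5_gt
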