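import Pool.Agent.P.MP_49dad5_gt.Core
import Pool.Agent.P.MP_49dad5_gt.Geom

/-! The capacity bound for torus-invariant convex bodies. -/

namespace Pool.Agent.P.MP_49dad5_gt

open MeasureTheory Finset

variable {n : ℕ} {B : Set (Fin n → ℂ)}

theorem isSymplecto_id : IsSymplecto (id : (Fin n → ℂ) → (Fin n → ℂ)) :=
  ⟨contDiff_id, ⟨id, contDiff_id, fun _ => rfl, fun _ => rfl⟩, fun x u v => by simp⟩

theorem kth_le (k : ℕ) (v : Fin n → ℕ) (hv : k ≤ ∑ j, v j) (a : Fin n → ENNReal) (t : ENNReal)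
    (ha : ∀ j, a j < ⊤) (h : ∀ j, v j * a j ≤ t) : kth k a ≤ t := by
  classical
  apply sInf_le
  set S : Finset (Fin n × ℕ) :=
    (univ.sigma fun j => Finset.Icc 1 (v j)).map (Equiv.sigmaEquivProd (Fin n) ℕ).toEmbedding
    with hS
  have hcard : S.card = ∑ j, v j := by
    rw [hS, Finset.card_map, Finset.card_sigma]; simp
  have hsub : (S : Set (Fin n × ℕ)) ⊆ {p : Fin n × ℕ | 0 < p.2 ∧ a p.1 < ⊤ ∧ p.2 * a p.1 ≤ t} := by
    intro p hp
    rw [hS, Finset.mem_coe, Finset.mem_map] at hp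
    obtain ⟨⟨j, m⟩, hm, rfl⟩ := hp
    simp only [Finset.mem_sigma, mem_univ, true_and, Finset.mem_Icc] at hm
    refine ⟨hm.1, ha j, le_trans ?_ (h j)⟩
    have : (m : ENNReal) ≤ v j := by exact_mod_cast hm.2
    exact mul_le_mul_left this _
  calc (k : ℕ∞) ≤ (S.card : ℕ∞) := by rw [hcard]; exact_mod_cast hv
    _ = (S : Set (Fin n × ℕ)).encard := (Set.encard_coe_eq_coe_finsetCard S).symm
    _ ≤ _ := Set.encard_le_encard hsub

theorem continuous_wt (w : Fin n → ℝ) : Continuous fun z : Fin n → ℂ => ∑ j, w j * moment z j := by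
  unfold moment
  fun_prop

theorem ell_bound {k : ℕ} {c : Set (Fin n → ℂ) → ENNReal} (hc : IsCapacity k c) (hK : IsCompact B)
    (v : Fin n → ℕ) (hv : k ≤ ∑ j, v j) {h : ℝ} (hh : 0 ≤ h)
    (hB : ∀ z ∈ B, ∑ j, v j * moment z j ≤ h) : c B ≤ ENNReal.ofReal h := by
  obtain ⟨R, hR⟩ := (hK.image (continuous_wt fun _ => (1 : ℝ))).bddAbove
  have hR' : ∀ z ∈ B, ∑ j, moment z j ≤ |R| + 1 := fun z hz => by
    have := hR ⟨z, hz, rfl⟩
    simp only [one_mul] at this
    linarith [le_abs_self R]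
  have hR0 : 0 < |R| + 1 := by positivity
  apply ENNReal.le_of_forall_pos_le_add
  intro ε hε _
  have hε' : (0 : ℝ) < ε := hε
  set γ : ℝ := ε / (|R| + 1) with hγ
  have hγ0 : 0 < γ := by positivity
  set H : ℝ := h + ε with hH
  have hH0 : 0 < H := by positivity
  set a : Fin n → ENNReal := fun j => ENNReal.ofReal (H / (v j + γ)) with ha
  have hpos : ∀ j, 0 < H / (v j + γ) := fun j => by positivity
  have hsub : B ⊆ ellipsoid a := fun z hz => by
    have h1 : ∀ j, ENNReal.ofReal (‖z j‖ ^ 2) / a j =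
        ENNReal.ofReal ((v j + γ) * moment z j / (H * Real.pi)) := fun j => by
      rw [ha, ← ENNReal.ofReal_div_of_pos (hpos j)]
      congr 1
      have := Real.pi_pos
      unfold moment
      field_simp
    simp only [ellipsoid, Set.mem_setOf_eq, h1]
    have hm : ∀ j, 0 ≤ moment z j := fun j => by
      have := Real.pi_pos
      unfold moment; positivity
    rw [← ENNReal.ofReal_sum_of_nonneg fun j _ => by
      have := Real.pi_pos
      have := hm j
      positivity]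
    apply ENNReal.ofReal_le_ofReal
    rw [← Finset.sum_div, div_le_div_iff₀ (by have := Real.pi_pos; positivity) Real.pi_pos]
    have h2 : ∑ j, (v j + γ) * moment z j = ∑ j, v j * moment z j + γ * ∑ j, moment z j := by
      rw [Finset.mul_sum, ← Finset.sum_add_distrib]
      exact Finset.sum_congr rfl fun j _ => by ring
    have h3 : γ * ∑ j, moment z j ≤ ε := by
      calc γ * ∑ j, moment z j ≤ γ * (|R| + 1) := by gcongr; exact hR' z hz
        _ = ε := by rw [hγ]; field_simp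
    have h4 := hB z hz
    have h5 : ∑ j, (v j + γ) * moment z j ≤ H := by rw [h2, hH]; linarith
    nlinarith [Real.pi_pos]
  calc c B ≤ c (ellipsoid a) := hc.1 _ _ id isSymplecto_id (by simpa using hsub)
    _ = kth k a := hc.2.2 a (fun j => ENNReal.ofReal_pos.2 (hpos j))
        fun j _ => ENNReal.ofReal_lt_top
    _ ≤ ENNReal.ofReal H := kth_le k v hv a _ (fun j => ENNReal.ofReal_lt_top) fun j => by
        rw [ha, ← ENNReal.ofReal_natCast, ← ENNReal.ofReal_mul (by positivity)]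
        apply ENNReal.ofReal_le_ofReal
        rw [← mul_div_assoc, div_le_iff₀ (by positivity)]
        nlinarith
    _ = ENNReal.ofReal h + ε := by
        rw [hH, ENNReal.ofReal_add hh hε'.le, ENNReal.ofReal_coe_nnreal]

theorem one_add_pow_le (n : ℕ) {e : ℝ} (h0 : 0 ≤ e) (h1 : e ≤ 1) :
    (1 + e) ^ n ≤ 1 + (2 ^ n - 1) * e := by
  induction n with
  | zero => simp
  | succ n ih =>
    have h2 : (1 : ℝ) ≤ 2 ^ n := one_le_pow₀ (by norm_num)
    calc (1 + e) ^ (n + 1) = (1 + e) ^ n * (1 + e) := pow_succ _ _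
      _ ≤ (1 + (2 ^ n - 1) * e) * (1 + e) := by gcongr
      _ = 1 + 2 ^ n * e + (2 ^ n - 1) * e * e := by ring
      _ ≤ 1 + 2 ^ n * e + (2 ^ n - 1) * e * 1 := by gcongr
      _ = 1 + (2 ^ (n + 1) - 1) * e := by ring

theorem radial_support (hB : IsToricBody B) {ρ : ℝ} (h1 : (fun _ => (ρ : ℂ)) ∈ B)
    (h2 : ∀ z ∈ B, ∃ j, ‖z j‖ ≤ ρ) :
    ∃ u : Fin n → ℝ, (∀ j, 0 ≤ u j) ∧ ∑ j, u j = 1 ∧ ∀ z ∈ B, ∑ j, u j * ‖z j‖ ≤ ρ := by
  obtain ⟨u, hu0, hu1, hu⟩ := exists_support {x : Fin n → ℝ | (fun j => (x j : ℂ)) ∈ B}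
    (fun x hx y hy a b ha hb hab => by
      have := hB.2.1 hx hy ha hb hab
      simp only [Set.mem_setOf_eq]
      convert this using 1
      funext j
      simp) ρ h1
    (fun x hx => by
      obtain ⟨j, hj⟩ := h2 _ hx
      refine ⟨j, le_trans (le_abs_self _) ?_⟩
      simpa using hj)
  exact ⟨u, hu0, hu1, fun z hz => hu (fun j => ‖z j‖) (hB.2.2.2 z hz _ fun j => by simp)⟩

theorem main (n : ℕ) (hn : 0 < n) : ∃ k₀ : ℕ, ∀ k ≥ k₀, ∀ c : Set (Fin n → ℂ) → ENNReal,
    IsCapacity k c → ∀ B, IsToricBody B →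
    (∀ ρ : ℝ, 0 < ρ → (fun _ => (ρ : ℂ)) ∈ B → (∀ z ∈ B, ∃ j, ‖z j‖ ≤ ρ) →
      c B ≤ ENNReal.ofReal ((k + n - 1) * (Real.pi * ρ ^ 2))) →
    c B ^ n ≤ (k : ENNReal) ^ n * volume B ∧
      (c B ^ n = (k : ENNReal) ^ n * volume B → ∃ a, B = cube n a) := by
  obtain ⟨k₀, hk₀⟩ := core n hn (8 ^ n) (by positivity)
  refine ⟨k₀ + n, fun k hk c hc B hB hcyl => ?_⟩
  obtain ⟨ρ, hρ, h1, h2⟩ := hB.exists_rho hn
  have hcB := hcyl ρ hρ h1 h2
  set δ : ℝ := Real.pi * ρ ^ 2 with hδ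
  have hδ0 : 0 < δ := by have := Real.pi_pos; positivity
  have hkpos : (0 : ℝ) < k := by
    have : 0 < k := by omega
    exact_mod_cast this
  have hnk : (n : ℝ) ≤ k := by exact_mod_cast (by omega : n ≤ k)
  have hfin : c B ≠ ⊤ := ne_top_of_le_ne_top ENNReal.ofReal_ne_top hcB
  set x : ℝ := (c B).toReal with hx
  have hx0 : 0 ≤ x := ENNReal.toReal_nonneg
  have hcx : c B = ENNReal.ofReal x := (ENNReal.ofReal_toReal hfin).symm
  have hn1 : (1 : ℝ) ≤ n := by exact_mod_cast hn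
  have hxle : x ≤ (k + n - 1) * δ := by
    rw [hcx] at hcB
    exact (ENNReal.ofReal_le_ofReal_iff (mul_nonneg (by linarith) hδ0.le)).1 hcB
  have key : ∀ t : ℝ, 0 ≤ t → ∀ z ∈ B, ∀ i, ρ * (1 + t) ≤ ‖z i‖ →
      ENNReal.ofReal ((k * δ) ^ n * (1 + t / 4 ^ n)) ≤ (k : ENNReal) ^ n * volume B :=
    fun t ht z hz i hi => by
      have := hB.vol_lower hρ h1 ht hz hi
      calc ENNReal.ofReal ((k * δ) ^ n * (1 + t / 4 ^ n))
          = (k : ENNReal) ^ n * ENNReal.ofReal (δ ^ n * (1 + t / 4 ^ n)) := by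
            rw [← ENNReal.ofReal_natCast, ← ENNReal.ofReal_pow hkpos.le,
              ← ENNReal.ofReal_mul (by positivity)]
            congr 1; ring
        _ ≤ _ := by gcongr
  rw [hcx, ← ENNReal.ofReal_pow hx0]
  have hkδ : 0 < (k * δ) ^ n := by positivity
  rcases le_or_gt x (k * δ) with hle | hlt
  · have hxn : x ^ n ≤ (k * δ) ^ n := by gcongr
    constructor
    · refine le_trans (ENNReal.ofReal_le_ofReal ?_) (key 0 le_rfl _ h1 ⟨0, hn⟩ ?_)
      · simpa using hxn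
      · simp [abs_of_pos hρ]
    · intro heq
      refine ⟨δ, Set.Subset.antisymm (fun z hz j => ?_) fun z hz => hB.down h1 fun j => ?_⟩
      · have : ‖z j‖ ≤ ρ := by
          by_contra hc'
          push Not at hc'
          have ht : 0 < ‖z j‖ / ρ - 1 := by rw [sub_pos, one_lt_div hρ]; exact hc'
          have h3 := key _ ht.le z hz j (by apply le_of_eq; field_simp; ring)
          rw [← heq, ENNReal.ofReal_le_ofReal_iff (by positivity)] at h3
          have h4 : 0 < (k * δ) ^ n * ((‖z j‖ / ρ - 1) / 4 ^ n) := by positivity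
          nlinarith
        unfold moment
        rw [hδ]
        have := Real.pi_pos
        gcongr
      · have := hz j
        unfold moment at this
        rw [hδ, mul_le_mul_iff_right₀ Real.pi_pos] at this
        rw [Complex.norm_real, Real.norm_eq_abs, abs_of_pos hρ]
        exact (pow_le_pow_iff_left₀ (norm_nonneg _) hρ.le two_ne_zero).1 this
  · set e : ℝ := x / (k * δ) - 1 with he
    have hxe : x = k * δ * (1 + e) := by rw [he]; field_simp; ring
    have he0 : 0 < e := by rw [he, sub_pos, one_lt_div (by positivity)]; exact hlt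
    have hke : k * e ≤ n := by
      have : k * e * δ ≤ n * δ := by nlinarith
      exact le_of_mul_le_mul_right this hδ0
    have he1 : e ≤ 1 := by
      by_contra h
      push Not at h
      nlinarith
    obtain ⟨u, hu0, hu1, hu⟩ := radial_support hB h1 h2
    obtain ⟨v, hv, hcore⟩ := hk₀ k (by omega) u hu0 hu1
    have hbig : ∃ z ∈ B, ∃ i, ρ * (1 + 8 ^ n * e) ≤ ‖z i‖ := by
      by_contra hcon
      push Not at hcon
      obtain ⟨z, hz, hmax⟩ := hB.1.exists_isMaxOn ⟨_, h1⟩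
        (continuous_wt fun j => (v j : ℝ)).continuousOn
      have h3 := hcore e he0 hke (fun j => ‖z j‖ / ρ - 1) (fun j => ⟨by
          have : 0 ≤ ‖z j‖ / ρ := by positivity
          linarith, by
          have := hcon z hz j
          push_cast
          rw [sub_le_iff_le_add, div_le_iff₀ hρ]
          linarith⟩) (by
        have h4 : ∑ j, u j * (‖z j‖ / ρ - 1) = (∑ j, u j * ‖z j‖) / ρ - ∑ j, u j := by
          rw [Finset.sum_div, ← Finset.sum_sub_distrib]
          exact Finset.sum_congr rfl fun j _ => by ring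
        rw [h4, hu1, sub_nonpos, div_le_one hρ]
        exact hu z hz)
      have h5 : ∑ j, (v j : ℝ) * moment z j = δ * ∑ j, (v j : ℝ) * (1 + (‖z j‖ / ρ - 1)) ^ 2 := by
        rw [Finset.mul_sum]
        refine Finset.sum_congr rfl fun j _ => ?_
        unfold moment
        rw [hδ]; field_simp; ring
      have h6 : ∑ j, (v j : ℝ) * moment z j < x := by
        rw [h5, hxe]; nlinarith
      have h7 : 0 ≤ ∑ j, (v j : ℝ) * moment z j := by
        rw [h5]; positivity
      have h8 := ell_bound hc hB.1 v hv.ge h7 fun w hw => hmax hw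
      rw [hcx, ENNReal.ofReal_le_ofReal_iff h7] at h8
      linarith
    obtain ⟨z, hz, i, hi⟩ := hbig
    have h3 := key _ (by positivity) z hz i hi
    have h4 : x ^ n < (k * δ) ^ n * (1 + 8 ^ n * e / 4 ^ n) := by
      have h5 : (8 : ℝ) ^ n * e / 4 ^ n = 2 ^ n * e := by
        rw [show (8 : ℝ) = 2 * 4 by norm_num, mul_pow]; field_simp
      rw [h5, hxe, mul_pow]
      have := one_add_pow_le n he0.le he1
      gcongr
      linarith
    have h6 : ENNReal.ofReal (x ^ n) < (k : ENNReal) ^ n * volume B :=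
      lt_of_lt_of_le ((ENNReal.ofReal_lt_ofReal_iff (by positivity)).2 h4) h3
    exact ⟨h6.le, fun h => absurd h h6.ne⟩

theorem torus_invariant (n : ℕ) (hn : 0 < n) : ∃ k₀ : ℕ, ∀ k ≥ k₀,
    ∀ c : Set (Fin n → ℂ) → ENNReal, IsCapacity k c → CylBound k c → ∀ B, IsToricBody B →
    c B ^ n ≤ (k : ENNReal) ^ n * volume B ∧
      (c B ^ n = (k : ENNReal) ^ n * volume B → ∃ a, B = cube n a) := by
  obtain ⟨k₀, h⟩ := main n hn
  refine ⟨k₀, fun k hk c hc hcyl B hB => h k hk c hc B hB fun ρ hρ _ h2 => ?_⟩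
  have := Real.pi_pos
  refine hcyl _ (by positivity) B hB.1 fun z hz => ?_
  obtain ⟨j, hj⟩ := h2 z hz
  refine ⟨j, ?_⟩
  unfold moment
  gcongr

theorem convex_toric (n : ℕ) (hn : 0 < n) : ∃ k₀ : ℕ, ∀ k ≥ k₀,
    ∀ c : Set (Fin n → ℂ) → ENNReal, IsCapacity k c → ∀ B, IsToricBody B →
    Convex ℝ (moment '' B) →
    c B ^ n ≤ (k : ENNReal) ^ n * volume B ∧
      (c B ^ n = (k : ENNReal) ^ n * volume B → ∃ a, B = cube n a) := by
  obtain ⟨k₀, h⟩ := main n hn
  refine ⟨k₀, fun k hk c hc B hB hconv => h k hk c hc B hB fun ρ hρ h1 h2 => ?_⟩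
  have hpi := Real.pi_pos
  have hn1 : (1 : ℝ) ≤ n := by exact_mod_cast hn
  have hk0 : (0 : ℝ) ≤ k := by positivity
  have hN : (0 : ℝ) ≤ k + n - 1 := by linarith
  obtain ⟨u, hu0, hu1, hu⟩ := exists_support (moment '' B) hconv (Real.pi * ρ ^ 2)
    ⟨_, h1, by funext j; simp [moment]⟩ (by
      rintro _ ⟨z, hz, rfl⟩
      obtain ⟨j, hj⟩ := h2 z hz
      refine ⟨j, ?_⟩
      unfold moment
      gcongr)
  refine ell_bound hc hB.1 (fun j => ⌊(k + n - 1 : ℝ) * u j⌋₊) ?_ (by positivity) fun z hz => ?_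
  · have h3 : ∑ j, (k + n - 1 : ℝ) * u j < ∑ j, ((⌊(k + n - 1 : ℝ) * u j⌋₊ : ℝ) + 1) :=
      Finset.sum_lt_sum_of_nonempty ⟨⟨0, hn⟩, mem_univ _⟩ fun j _ => Nat.lt_floor_add_one _
    rw [← Finset.mul_sum, hu1, Finset.sum_add_distrib] at h3
    simp only [Finset.sum_const, Finset.card_univ, Fintype.card_fin, nsmul_eq_mul, mul_one] at h3
    have h4 : (k : ℝ) < ((∑ j, ⌊(k + n - 1 : ℝ) * u j⌋₊ + 1 : ℕ) : ℝ) := by
      push_cast; linarith
    have h5 : k < ∑ j, ⌊(k + n - 1 : ℝ) * u j⌋₊ + 1 := by exact_mod_cast h4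
    omega
  · calc ∑ j, (⌊(k + n - 1 : ℝ) * u j⌋₊ : ℝ) * moment z j
        ≤ ∑ j, (k + n - 1 : ℝ) * u j * moment z j := Finset.sum_le_sum fun j _ => by
          have : 0 ≤ moment z j := by unfold moment; positivity
          gcongr
          exact Nat.floor_le (mul_nonneg hN (hu0 j))
      _ = (k + n - 1 : ℝ) * ∑ j, u j * moment z j := by
          rw [Finset.mul_sum]
          exact Finset.sum_congr rfl fun j _ => by ring
      _ ≤ _ := by gcongr; exact hu _ ⟨z, hz, rfl⟩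

end Pool.Agent.P.MP_49dad5_gt
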